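import Mathlib
import Pool.Agent.J4.H78.DV.Frey
import Pool.Agent.J4.H78.DV.One
import Pool.Agent.Results.MP_6babc4_nt.ThinSequences

/-!
# Frey's inequality for families with several parameters at vectors of integers with restricted or
# independent random digits, over all number fields of bounded degree and for all Weil restrictions

Let `J = A / D` be a rational function over `ℚ` in `r` variables whose reductions modulo the primes have
many poles in the mean (`MeanPoles` of the starting file `ThinSequences`); this is so for the universal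
family `y² = x³ + t₁ x + t₂` and for every rational function `A / D` of one variable with a pole, i.e.
if an irreducible factor of `D` does not divide `A`. Let `b₁, …, b_r ≥ 2` be bases. Let the integer
`n_j` have `k_j` digits in base `b_j`, `N ≤ b_j ^ k_j ≤ N ^ m`, and let ALL digits of all `n_j` be
independent random variables with arbitrary laws, such that no digit takes a value with a probability
above `1 - η`; for example, the vector `(n_1, …, n_r)` is uniformly distributed in the set of the vectors
whose digits belong to arbitrary prescribed sets of at least two digits, one set for each coordinate and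
each place. This set may have only `2 ^ (k_1 + ⋯ + k_r)` elements, an arbitrarily small power of the
number of all vectors of the same size.

For every `ε > 0`, `m` and `d` there are `κ`, `c'` and `N₀`, which depend on `J`, the bases, `η`, `m`, `d`
and `ε` only, such that for all `N ≥ N₀`, all laws and all shifts `s_j`, `|s_j| ≤ N ^ m`, with
probability at least `1 - ε` Frey's inequality with the constants `κ` and `c'` holds for ALL Weil
restrictions `Res_{L/K} E`, where `L/K` is any extension of number fields, `[L : ℚ] ≤ d`, and `E` is any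
elliptic curve over `L` of invariant `j = J (s_1 + n_1, …, s_r + n_r)` (all twists).

Proof. The characteristic function of an integer with independent digits is small at the fractions
`a / q`, `q` prime to `b`, for all `q ≤ N ^ κ` outside a set of moduli with `O (x ^ (1 / 8))` elements up
to `x` (`Pool.Agent.R459.Eq.good` of the starting library); the individual moduli `q ≤ N ^ κ` need not
be good. Turan's inequality with exceptional pairs of primes (`Pool.Agent.J4.H78.DV.sieve`) shows that
with probability `1 - ε` a prime `p ≥ N ^ θ` divides `D` and not `A` at the random vector. All elliptic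
curves of invariant `j` have bad reduction at the primes above `p`, and the height of `j` is
`O(log N)`.
-/

set_option autoImplicit false

namespace Pool.Agent.Results.MP_6babc4_nt.DigitVectors

open Pool.Agent.Results.MP_6babc4_nt.ThinSequences (Frey MeanPoles Holds frey_of)
open MvPolynomial

/-- `w i a` is the probability that the `i`-th digit in base `b` is `a`; no digit takes a value with a
probability above `1 - η`. -/
def Laws (b : ℕ) (η : ℝ) (w : ℕ → ℕ → ℝ) : Prop :=
  ∀ i, (∀ a, 0 ≤ w i a ∧ w i a ≤ 1 - η) ∧ ∑ a ∈ Finset.range b, w i a = 1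

open Classical in
/-- the probability of the event `E` for a vector `n`, if `n j` has `k j` digits in base `b j`, all
digits are independent and `w j i` is the law of the `i`-th digit `n j / b j ^ i % b j` of `n j` -/
noncomputable def prob {r : ℕ} (b k : Fin r → ℕ) (w : Fin r → ℕ → ℕ → ℝ) (E : (Fin r → ℕ) → Prop) : ℝ :=
  ∑ n ∈ (Fintype.piFinset fun j => Finset.range (b j ^ k j)).filter E,
    ∏ j, ∏ i ∈ Finset.range (k j), w j i (n j / b j ^ i % b j)

/-- a polynomial of one variable, as an element of `ℤ[X₀]` -/
noncomputable def one (A : Polynomial ℤ) : MvPolynomial (Fin 1) ℤ := Polynomial.aeval (X 0) A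

/-- **Theorem.** (1) Frey's inequality holds, with probability at least `1 - ε`, with constants `κ` and
`c'` depending on `J = A / D`, the bases, `η`, `m`, `d` and `ε` only, for the Weil restrictions to all
subfields of all elliptic curves of invariant `J (s_1 + n_1, …, s_r + n_r)` over all number fields of
degree at most `d`. (2) The invariant `6912 t₁³ / (4 t₁³ + 27 t₂²)` of the universal family and (3) the
rational functions of one variable with a pole have many poles in the mean. -/
theorem result :
    (∀ (r : ℕ) (A D : MvPolynomial (Fin r) ℤ), 0 < r → D ≠ 0 → MeanPoles A D →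
      ∀ b : Fin r → ℕ, (∀ j, 2 ≤ b j) → ∀ η : ℝ, 0 < η → ∀ (m d : ℕ) (ε : ℝ), 0 < ε →
      ∃ (κ c' : ℝ) (N₀ : ℕ), 0 < κ ∧ ∀ N : ℕ, N₀ ≤ N →
        ∀ k : Fin r → ℕ, (∀ j, N ≤ b j ^ k j ∧ b j ^ k j ≤ N ^ m) →
        ∀ s : Fin r → ℤ, (∀ j, |s j| ≤ (N : ℤ) ^ m) →
        ∀ w : Fin r → ℕ → ℕ → ℝ, (∀ j, Laws (b j) η (w j)) →
          prob b k w (fun n => ¬ Holds κ c' d A D (fun j => s j + n j)) ≤ ε) ∧
    MeanPoles (C 6912 * X 0 ^ 3 : MvPolynomial (Fin 2) ℤ) (C 4 * X 0 ^ 3 + C 27 * X 1 ^ 2) ∧
    ∀ A D P : Polynomial ℤ, Irreducible P → 0 < P.natDegree → P ∣ D → ¬ P ∣ A →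
      MeanPoles (one A) (one D) := by
  classical
  refine ⟨fun r A D hr hD hM b hb η hη m d ε hε => ?_, Pool.Agent.N141.TS.mean_wei,
    fun A D P hP hd hPD hPA => Pool.Agent.J4.H78.DV.mean_one A D P hP hd hPD hPA⟩
  obtain ⟨σ, hσ, N₀, hN₀⟩ := Pool.Agent.J4.H78.DV.thinD hr hD hM b hb η hη m ε hε
  obtain ⟨c', hc'⟩ := frey_of hσ d
  refine ⟨(5 + d * σ) / 12, c', N₀, by positivity, fun N hN k hk s hs w hw => ?_⟩
  have hdig : ∀ j, Pool.Agent.TH872.Sq.Dig (b j) η (w j) := fun j =>
    ⟨fun i a => ((hw j i).1 a).1, fun i => (hw j i).2, fun i a => ((hw j i).1 a).2⟩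
  have h1 := hN₀ N hN k hk w hdig s hs
  have h2 : prob b k w (fun n => ¬ Holds ((5 + d * σ) / 12) c' d A D (fun j => s j + n j)) =
      ∑ n ∈ (Pool.Agent.J4.H78.DV.OmV b k).filter
        (fun n => ¬ Holds ((5 + d * σ) / 12) c' d A D (fun j => s j + (n j : ℤ))),
        Pool.Agent.J4.H78.DV.PV b k w n := by
    unfold prob Pool.Agent.J4.H78.DV.OmV Pool.Agent.J4.H78.DV.PV Pool.Agent.TH872.Sq.P
    simp only [Nat.zero_add]
    congr!
  rw [h2]
  refine le_trans (Finset.sum_le_sum_of_subset_of_nonneg ?_
    fun n _ _ => Pool.Agent.J4.H78.DV.PV_nonneg hdig n) h1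
  intro n hn
  rw [Finset.mem_filter] at hn ⊢
  refine ⟨hn.1, fun hb => hn.2 ⟨hb.1, fun L _ _ hL => hc' _ _ hb L hL⟩⟩

end Pool.Agent.Results.MP_6babc4_nt.DigitVectors
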