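import Mathlib
import Pool.Agent.N365.FH.D
import Pool.Agent.R559.NP.Near

/-!
# Frey's inequality for all families of elliptic curves at all parameters near a point

Frey asks for constants `κ`, `c` with `h_F(A) ≤ κ log N_A + c` for all abelian varieties `A` over `K` of
dimension `g`.

Let `φ` be any map of the rational numbers to a metric space `X`, for example the inclusion in `ℝ` or in
`ℚ_p`, and `δ > 0`.  There is ONE exceptional set of points `ξ ∈ X`, of Hausdorff dimension at most
`δ`, outside of which the following holds for ALL rational functions `J` over `ℚ` with at least two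
poles, of any degree `d` (for example the `j`-invariants of the elliptic curves over `ℚ(T)` with full
two-torsion), all `τ > 0`, `κ > 8 (d + 1) / (3 δ τ) + 1 / 2`, `c₀` and `M`: for all but finitely many
`t ∈ ℚ` with distance `|φ(t) - ξ| ≤ M H(t) ^ (- τ)` the function `J` has no pole at `t` and
`h_F(A) + c₀ g ≤ κ log N_A` for ALL number fields `K` and `L ⊇ K`, of any degrees, and ALL elliptic
curves `E` over `L` of invariant `J(t)` (all twists), where `A = Res_{L/K} E` is the Weil restriction, an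
abelian variety over `K` of dimension `g = [L : K]` (`A = E` for `L = K`).

For the functions with one pole, for example `J(t) = t`, the same holds with `τ > 0` fixed and the
dimension `1 / τ + δ`.  So `κ` depends on `δ τ` and on the degree of the family only, not on the family,
on `K`, on `g` or on `ξ`.  (The starting file `EveryOneParameterFamily` counts the exceptional `t` for
each family; the starting file `InvariantsNearAPoint` is about the single family `J(t) = t`, for algebraic
`t`, with the bound `13 / (8 τ)` or more for the dimension.)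

The height is the (unstable) Faltings height of the Néron model over `O_K`; `12 [K : ℚ] h_F(A)` is the
sum of the logarithm of the norm of the minimal discriminant of `E`, of the archimedean terms and of
`6 log (|D_L| / |D_K| ^ g)`.  The conductor is `N_A = N(f_E) (|D_L| / |D_K| ^ g) ^ 2` (Milne), where the
part of `N(f_E)` prime to six is `multNorm E * addNorm E`.

Proof.  The starting library (`Pool.Agent.N365.FH`, helper365) shows that for all but `O(B ^ ε)`
(`O(B ^ (1 + ε))`) rational numbers `t` of height at most `B` there are primes with product at least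
`B ^ (ε / 8)` at which `J(t)` has a pole; all curves of invariant `J(t)` have bad reduction there.  The
points near which there are infinitely many elements of a thin set form a set of small dimension
(`Pool.Agent.R559.NP`, helper559).  The exceptional sets of the countably many functions and rational
parameters are united, and the general `τ`, `κ`, `c₀`, `M` are reached by monotonicity.
-/

set_option autoImplicit false
set_option linter.unusedSectionVars false

namespace Pool.Agent.Results.MP_6babc4_nt.FamiliesNearAPoint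

open NumberField IsDedekindDomain Polynomial MeasureTheory

/-- the modular invariant `j(τ) = E₄(τ) ^ 3 / Δ(τ) = 1 / q + 744 + ⋯` -/
noncomputable def jInv (τ : UpperHalfPlane) : ℂ :=
  ModularForm.E₄ τ ^ 3 / ModularForm.discriminant τ

/-- the archimedean term `- log (|Δ(τ)| (Im τ) ^ 6)` of the Faltings height -/
noncomputable def arch (τ : UpperHalfPlane) : ℝ :=
  -Real.log (‖ModularForm.discriminant τ‖ * τ.im ^ 6)

/-- the points `τ w` have modular invariant `j` -/
def IsPeriod {L : Type} [Field L] [NumberField L] (j : L)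
    (τ : InfinitePlace L → UpperHalfPlane) : Prop := ∀ w, jInv (τ w) = w.embedding j

/-- the equation is integral at `v` -/
def IntAt {L : Type} [Field L] [NumberField L] (v : HeightOneSpectrum (𝓞 L))
    (E : WeierstrassCurve L) : Prop :=
  v.valuation L E.a₁ ≤ 1 ∧ v.valuation L E.a₂ ≤ 1 ∧ v.valuation L E.a₃ ≤ 1 ∧
    v.valuation L E.a₄ ≤ 1 ∧ v.valuation L E.a₆ ≤ 1

/-- the exponent of `v` in the minimal discriminant of the curve: the least valuation at `v` of the
discriminant of a Weierstrass equation of the curve over `L` which is integral at `v` -/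
noncomputable def discExp {L : Type} [Field L] [NumberField L] (v : HeightOneSpectrum (𝓞 L))
    (E : WeierstrassCurve L) : ℕ :=
  sInf {m : ℕ | ∃ C : WeierstrassCurve.VariableChange L, IntAt v (C • E) ∧
    v.valuation L (C • E).Δ = WithZero.exp (-(m : ℤ))}

/-- the Faltings height over `K` of the Weil restriction `A = Res_{L/K} E` of an elliptic curve `E`
over `L` (up to an absolute additive multiple of `[L : K]` which depends on the normalisation of the
metric only) -/
noncomputable def height (K : Type) [Field K] [NumberField K] {L : Type} [Field L] [NumberField L]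
    [Algebra K L] (E : WeierstrassCurve L) (τ : InfinitePlace L → UpperHalfPlane) : ℝ :=
  (∑ᶠ v : HeightOneSpectrum (𝓞 L), (discExp v E : ℝ) * Real.log (Ideal.absNorm v.asIdeal : ℝ) +
    ∑ w : InfinitePlace L, (w.mult : ℝ) * arch (τ w) +
    6 * (Real.log |(discr L : ℝ)| - Module.finrank K L * Real.log |(discr K : ℝ)|)) /
    (12 * Module.finrank ℚ K)

/-- good reduction at `v`: some Weierstrass equation over `L` of the curve is integral at `v` and
has a discriminant which is a unit at `v` -/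
def GoodAt {L : Type} [Field L] [NumberField L] (v : HeightOneSpectrum (𝓞 L))
    (E : WeierstrassCurve L) : Prop :=
  ∃ C : WeierstrassCurve.VariableChange L,
    v.valuation L (C • E).a₁ ≤ 1 ∧ v.valuation L (C • E).a₂ ≤ 1 ∧ v.valuation L (C • E).a₃ ≤ 1 ∧
    v.valuation L (C • E).a₄ ≤ 1 ∧ v.valuation L (C • E).a₆ ≤ 1 ∧ v.valuation L (C • E).Δ = 1

/-- semistable (good or multiplicative) reduction at `v`: some Weierstrass equation over `L` of the
curve is integral at `v` and its discriminant or its invariant `c₄` is a unit at `v` -/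
def SemistableAt {L : Type} [Field L] [NumberField L] (v : HeightOneSpectrum (𝓞 L))
    (E : WeierstrassCurve L) : Prop :=
  ∃ C : WeierstrassCurve.VariableChange L,
    v.valuation L (C • E).a₁ ≤ 1 ∧ v.valuation L (C • E).a₂ ≤ 1 ∧ v.valuation L (C • E).a₃ ≤ 1 ∧
    v.valuation L (C • E).a₄ ≤ 1 ∧ v.valuation L (C • E).a₆ ≤ 1 ∧
    (v.valuation L (C • E).Δ = 1 ∨ v.valuation L (C • E).c₄ = 1)

/-- the product of the norms of the primes of multiplicative reduction not dividing six -/
noncomputable def multNorm {L : Type} [Field L] [NumberField L] (E : WeierstrassCurve L) : ℝ :=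
  ∏ᶠ v ∈ {v : HeightOneSpectrum (𝓞 L) |
    ¬ GoodAt v E ∧ SemistableAt v E ∧ v.valuation L 6 = 1}, (Ideal.absNorm v.asIdeal : ℝ)

/-- the product of the squares of the norms of the primes of additive reduction not dividing six -/
noncomputable def addNorm {L : Type} [Field L] [NumberField L] (E : WeierstrassCurve L) : ℝ :=
  ∏ᶠ v ∈ {v : HeightOneSpectrum (𝓞 L) | ¬ SemistableAt v E ∧ v.valuation L 6 = 1},
    (Ideal.absNorm v.asIdeal : ℝ) ^ 2

/-- the norm `|D_L| / |D_K| ^ [L : K]` of the relative discriminant -/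
noncomputable def relDisc (K L : Type) [Field K] [NumberField K] [Field L] [NumberField L]
    [Algebra K L] : ℝ := |(discr L : ℝ)| / |(discr K : ℝ)| ^ Module.finrank K L

/-- a factor of the conductor of `A = Res_{L/K} E`: the part prime to six of the norm of the
conductor of `E`, times the square of the norm of the relative discriminant -/
noncomputable def cond (K : Type) [Field K] [NumberField K] {L : Type} [Field L] [NumberField L]
    [Algebra K L] (E : WeierstrassCurve L) : ℝ :=
  multNorm E * addNorm E * relDisc K L ^ 2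

/-- Frey's inequality `h_F(A) + c₀ [L : K] ≤ κ log N_A` for all number fields `K`, all extensions
`L` of `K`, and the Weil restrictions `A = Res_{L/K} E` of all elliptic curves `E` over `L` of
invariant `j` -/
def Frey (κ c₀ : ℝ) (j : ℚ) : Prop :=
  ∀ (K L : Type) [Field K] [NumberField K] [Field L] [NumberField L] [Algebra K L]
    (E : WeierstrassCurve L) (τ : InfinitePlace L → UpperHalfPlane),
    E.Δ ≠ 0 → E.c₄ ^ 3 / E.Δ = (j : L) → IsPeriod (j : L) τ →
      height K E τ + c₀ * Module.finrank K L ≤ κ * Real.log (cond K E)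

/-- `A / D` is a rational function of degree `N ≥ 1` in lowest terms -/
structure IsFunction (N : ℕ) (A D : ℤ[X]) : Prop where
  pos : 1 ≤ N
  deg_num : A.natDegree ≤ N
  deg_den : D.natDegree ≤ N
  deg : A.natDegree = N ∨ D.natDegree = N
  coprime : IsCoprime (A.map (Int.castRingHom ℚ)) (D.map (Int.castRingHom ℚ))

/-- the number of the different poles on the projective line over `ℂ` of the function `A / D` of
degree `N`: the roots of `D`, and infinity if `deg D < N` -/
noncomputable def poleCount (N : ℕ) (D : ℤ[X]) : ℕ :=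
  (D.map (Int.castRingHom ℂ)).roots.toFinset.card + if D.natDegree < N then 1 else 0

/-- the value of the polynomial `f` at the rational number `t` -/
noncomputable def value (f : ℤ[X]) (t : ℚ) : ℚ := f.eval₂ (Int.castRingHom ℚ) t

/-- `t` is not a pole of `J = A / D` and Frey's inequality holds for the invariant `J(t)` -/
def HoldsAt (κ c₀ : ℝ) (A D : ℤ[X]) (t : ℚ) : Prop :=
  value D t ≠ 0 ∧ Frey κ c₀ (value A t / value D t)

theorem follows (N : ℕ) {ε : ℝ} (hε : 0 < ε) (c₀ : ℝ) :
    Pool.Agent.N365.FH.Follows (ε / 8) (N + 1)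
      (fun _ j => Frey ((16 * (N + 1) / ε + 3) / 6) c₀ j) := by
  obtain ⟨B₀, hB₀⟩ := Pool.Agent.N365.FH.frey N hε c₀
  refine ⟨B₀, fun B hB hB1 x y hM hx hy K L _ _ _ _ _ E τ hE hj hτ => ?_⟩
  have hj' : E.c₄ ^ 3 / E.Δ = (x : L) / y := by
    rw [hj]
    push_cast
    rfl
  have hτ' : Pool.Agent.TH876.FH.IsPeriod (E.c₄ ^ 3 / E.Δ) τ := by
    rw [hj]
    exact hτ
  have key := hB₀ B hB hB1 x y hM hx hy K L E τ hE hj' hτ'
  have hdK1 : (1 : ℝ) ≤ |(discr K : ℝ)| := by
    have h1 : (1 : ℤ) ≤ |discr K| := Int.one_le_abs (discr_ne_zero K)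
    exact_mod_cast h1
  have hdL1 : (1 : ℝ) ≤ |(discr L : ℝ)| := by
    have h1 : (1 : ℤ) ≤ |discr L| := Int.one_le_abs (discr_ne_zero L)
    exact_mod_cast h1
  have hm : 0 < multNorm E := Pool.Agent.Y733.FF.multN_pos E hE
  have ha : 0 < addNorm E := Pool.Agent.Y733.FF.addN_pos E hE
  have hr : 0 < relDisc K L := by
    unfold relDisc
    have : (0 : ℝ) < |(discr L : ℝ)| := by linarith
    have : (0 : ℝ) < |(discr K : ℝ)| := by linarith
    positivity
  have hrd : Real.log (relDisc K L ^ 2) = 2 * Pool.Agent.N365.FH.rd K L := by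
    unfold relDisc Pool.Agent.N365.FH.rd
    rw [Real.log_pow, Real.log_div (by linarith) (pow_pos (by linarith) _).ne', Real.log_pow]
    push_cast
    ring
  have hcond : Real.log (cond K E) = Real.log (multNorm E) + Real.log (addNorm E) +
      2 * Pool.Agent.N365.FH.rd K L := by
    unfold cond
    rw [Real.log_mul (mul_pos hm ha).ne' (pow_pos hr 2).ne', Real.log_mul hm.ne' ha.ne', hrd]
  rw [hcond]
  exact key

/-- the height of a rational number -/
def naiveHeight (t : ℚ) : ℕ := max t.num.natAbs t.den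

theorem one_le_height (t : ℚ) : (1 : ℝ) ≤ naiveHeight t := by
  have : 1 ≤ naiveHeight t := le_max_of_le_right t.den_pos
  exact_mod_cast this

theorem one_le_cond (K : Type) [Field K] [NumberField K] {L : Type} [Field L] [NumberField L]
    [Algebra K L] (E : WeierstrassCurve L) (hE : E.Δ ≠ 0) : 0 ≤ Real.log (cond K E) := by
  have hdK1 : (1 : ℝ) ≤ |(discr K : ℝ)| := by
    have h1 : (1 : ℤ) ≤ |discr K| := Int.one_le_abs (discr_ne_zero K)
    exact_mod_cast h1
  have hdL1 : (1 : ℝ) ≤ |(discr L : ℝ)| := by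
    have h1 : (1 : ℤ) ≤ |discr L| := Int.one_le_abs (discr_ne_zero L)
    exact_mod_cast h1
  have hm : 0 < multNorm E := Pool.Agent.Y733.FF.multN_pos E hE
  have ha : 0 < addNorm E := Pool.Agent.Y733.FF.addN_pos E hE
  have hr : 0 < relDisc K L := by
    unfold relDisc
    have : (0 : ℝ) < |(discr L : ℝ)| := by linarith
    have : (0 : ℝ) < |(discr K : ℝ)| := by linarith
    positivity
  have hrd : Real.log (relDisc K L ^ 2) = 2 * Pool.Agent.N365.FH.rd K L := by
    unfold relDisc Pool.Agent.N365.FH.rd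
    rw [Real.log_pow, Real.log_div (by linarith) (pow_pos (by linarith) _).ne', Real.log_pow]
    push_cast
    ring
  have hcond : Real.log (cond K E) = Real.log (multNorm E) + Real.log (addNorm E) +
      2 * Pool.Agent.N365.FH.rd K L := by
    unfold cond
    rw [Real.log_mul (mul_pos hm ha).ne' (pow_pos hr 2).ne', Real.log_mul hm.ne' ha.ne', hrd]
  rw [hcond]
  have h4 := Pool.Agent.N365.FH.rd_nonneg K L
  have h5 : 0 ≤ Real.log (multNorm E) := Pool.Agent.Y733.FF.log_multN_nonneg E hE
  have h6 : 0 ≤ Real.log (addNorm E) := by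
    have e : Real.log (addNorm E) = _ := Pool.Agent.Y733.FF.log_addN E hE
    rw [e]
    have : 0 ≤ ∑ᶠ v, Pool.Agent.Y733.FF.aw v E := finsum_nonneg fun v => Pool.Agent.Y733.FF.aw_nonneg v E
    linarith
  linarith

theorem mono {κ κ' c₀ c₁ : ℝ} (h : κ ≤ κ') (hc : c₁ ≤ c₀) {A D : ℤ[X]} {t : ℚ}
    (ht : HoldsAt κ c₀ A D t) : HoldsAt κ' c₁ A D t := by
  refine ⟨ht.1, fun K L _ _ _ _ _ E τ hE hj hτ => ?_⟩
  have h1 := ht.2 K L E τ hE hj hτ
  have h2 : κ * Real.log (cond K E) ≤ κ' * Real.log (cond K E) :=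
    mul_le_mul_of_nonneg_right h (one_le_cond K E hE)
  have h3 : c₁ * Module.finrank K L ≤ c₀ * Module.finrank K L :=
    mul_le_mul_of_nonneg_right hc (Nat.cast_nonneg _)
  linarith

theorem countable_poly : Countable ℤ[X] := by
  rw [← Cardinal.mk_le_aleph0_iff]
  refine Polynomial.cardinalMk_le_max.trans ?_
  simp

/-- one function -/
theorem one {X : Type} [MetricSpace X] (φ : ℚ → X) {d : ℕ} {A D : ℤ[X]} (h : IsFunction d A D)
    {ε s τ : ℝ} (c₀ : ℝ) (hε : 0 < ε) (hτ : 0 < τ)
    (hs : (if 2 ≤ poleCount d D then ε else 1 + ε) ≤ s) :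
    ∃ E : Set X, dimH E ≤ ENNReal.ofReal (s / τ) ∧ ∀ ξ : X, ξ ∉ E → ∀ M : ℝ,
      {t : ℚ | dist (φ t) ξ ≤ M * (naiveHeight t : ℝ) ^ (-τ) ∧
        ¬ HoldsAt ((16 * (d + 1) / ε + 3) / 6) c₀ A D t}.Finite := by
  have hs0 : 0 ≤ s := by
    refine le_trans ?_ hs
    split_ifs <;> linarith
  have hR : Pool.Agent.N365.LS.Rat d A D := ⟨h.pos, h.deg_num, h.deg_den, h.deg, h.coprime⟩
  have hpole : poleCount d D = Pool.Agent.N365.LS.poleCount d D := rfl
  obtain ⟨κ, hκ⟩ : ∃ κ : ℝ, κ = (16 * (d + 1) / ε + 3) / 6 := ⟨_, rfl⟩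
  obtain ⟨C, hC⟩ := Pool.Agent.N365.FH.few_rat hR hε (follows d hε c₀)
  rw [← hκ] at hC ⊢
  refine Pool.Agent.R559.NP.near_dim (T := ℚ) (X := X) (H := fun t => (naiveHeight t : ℝ))
    one_le_height hs0 hτ (fun ε' hε' => ⟨max C 0, fun B hB => ?_⟩) φ
  obtain ⟨b, hb⟩ : ∃ b : ℕ, b = ⌊B⌋₊ := ⟨_, rfl⟩
  have hb1 : 1 ≤ b := by rw [hb]; exact (Nat.one_le_floor_iff _).2 hB
  have hbB : (b : ℝ) ≤ B := by rw [hb]; exact Nat.floor_le (by linarith)
  have hb1R : (1 : ℝ) ≤ b := by exact_mod_cast hb1
  have hbox : {t : ℚ | |t.num| ≤ (b : ℤ) ∧ t.den ≤ b}.Finite := by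
    have hinj : Function.Injective (fun t : ℚ => (t.num, t.den)) := by
      intro x y hxy
      rw [Prod.mk.injEq] at hxy
      exact Rat.ext hxy.1 hxy.2
    refine Set.Finite.of_finite_image (f := fun t : ℚ => (t.num, t.den)) ?_ hinj.injOn
    refine ((Set.finite_Icc (-(b : ℤ)) b).prod (Set.finite_Icc 0 b)).subset ?_
    rintro _ ⟨t, ⟨h1, h2⟩, rfl⟩
    exact ⟨abs_le.1 h1, Nat.zero_le _, h2⟩
  have hsub : {t : ℚ | ¬ HoldsAt κ c₀ A D t ∧ (naiveHeight t : ℝ) ≤ B} ⊆
      {t : ℚ | |t.num| ≤ b ∧ t.den ≤ b ∧ ¬ HoldsAt κ c₀ A D t} := by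
    rintro t ⟨h1, h2⟩
    have h3 : naiveHeight t ≤ b := by rw [hb]; exact Nat.le_floor h2
    refine ⟨?_, (le_max_right _ _).trans h3, h1⟩
    have h4 : t.num.natAbs ≤ b := (le_max_left _ _).trans h3
    rw [Int.abs_eq_natAbs]
    exact_mod_cast h4
  have hfin : {t : ℚ | |t.num| ≤ (b : ℤ) ∧ t.den ≤ b ∧ ¬ HoldsAt κ c₀ A D t}.Finite :=
    hbox.subset fun t ht => ⟨ht.1, ht.2.1⟩
  refine ⟨hfin.subset hsub, ?_⟩
  have h1 : (({t : ℚ | ¬ HoldsAt κ c₀ A D t ∧ (naiveHeight t : ℝ) ≤ B}.ncard : ℕ) : ℝ) ≤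
      ({t : ℚ | |t.num| ≤ b ∧ t.den ≤ b ∧ ¬ HoldsAt κ c₀ A D t}.ncard : ℝ) := by
    exact_mod_cast Set.ncard_le_ncard hsub hfin
  refine h1.trans ((hC b hb1).trans (mul_le_mul (le_max_left _ _) ?_ (by positivity)
    (le_max_right _ _)))
  rw [← hpole]
  calc (b : ℝ) ^ (if 2 ≤ poleCount d D then ε else 1 + ε) ≤ (b : ℝ) ^ (s + ε') :=
        Real.rpow_le_rpow_of_exponent_le hb1R (by linarith)
    _ ≤ B ^ (s + ε') := Real.rpow_le_rpow (by linarith) hbB (by linarith)

/-- **Theorem.** Let `φ` be a map of the rational numbers to a metric space and `δ > 0`.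
(1) There is a set `E` of Hausdorff dimension at most `δ` such that for all `ξ ∉ E`, all rational
functions `A / D` with at least two poles, of any degree `d`, and all `τ > 0`,
`κ > (16 (d + 1) / (δ τ) + 3) / 6`, `c₀` and `M`, Frey's inequality with slope `κ` holds at all but
finitely many `t ∈ ℚ` with `dist (φ t) ξ ≤ M H(t) ^ (- τ)`, for all number fields, all Weil
restrictions and all twists at once.
(2) For every `τ > 0` there is a set `E` of Hausdorff dimension at most `1 / τ + δ` such that for all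
`ξ ∉ E`, all rational functions `A / D`, of any degree `d ≥ 1`, and all
`κ > (16 (d + 1) / (δ τ) + 3) / 6`, `c₀` and `M`, the same holds at all but finitely many `t ∈ ℚ` with
`dist (φ t) ξ ≤ M H(t) ^ (- τ)`. -/
theorem result (X : Type) [MetricSpace X] (φ : ℚ → X) (δ : ℝ) (hδ : 0 < δ) :
    (∃ E : Set X, dimH E ≤ ENNReal.ofReal δ ∧ ∀ ξ : X, ξ ∉ E →
      ∀ (d : ℕ) (A D : ℤ[X]), IsFunction d A D → 2 ≤ poleCount d D → ∀ τ κ c₀ M : ℝ, 0 < τ →
        (16 * (d + 1) / (δ * τ) + 3) / 6 < κ →
        {t : ℚ | dist (φ t) ξ ≤ M * (naiveHeight t : ℝ) ^ (-τ) ∧ ¬ HoldsAt κ c₀ A D t}.Finite) ∧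
    ∀ τ : ℝ, 0 < τ → ∃ E : Set X, dimH E ≤ ENNReal.ofReal (1 / τ + δ) ∧ ∀ ξ : X, ξ ∉ E →
      ∀ (d : ℕ) (A D : ℤ[X]), IsFunction d A D → ∀ κ c₀ M : ℝ,
        (16 * (d + 1) / (δ * τ) + 3) / 6 < κ →
        {t : ℚ | dist (φ t) ξ ≤ M * (naiveHeight t : ℝ) ^ (-τ) ∧ ¬ HoldsAt κ c₀ A D t}.Finite := by
  have := countable_poly
  constructor
  · have h0 : ∀ (d : ℕ) (A D : ℤ[X]) (q : ℚ) (n : ℕ), ∃ E : Set X, dimH E ≤ ENNReal.ofReal δ ∧
        (IsFunction d A D → 2 ≤ poleCount d D → 0 < q → ∀ ξ : X, ξ ∉ E → ∀ M : ℝ,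
          {t : ℚ | dist (φ t) ξ ≤ M * (naiveHeight t : ℝ) ^ (-(q : ℝ)) ∧
            ¬ HoldsAt ((16 * (d + 1) / (δ * q) + 3) / 6) n A D t}.Finite) := by
      intro d A D q n
      by_cases h1 : IsFunction d A D ∧ 2 ≤ poleCount d D ∧ 0 < q
      · obtain ⟨g1, g2, g3⟩ := h1
        have hq : (0 : ℝ) < q := by exact_mod_cast g3
        obtain ⟨E, hE, hE'⟩ := one φ g1 (ε := δ * q) (s := δ * q) (τ := q) n (by positivity) hq
          (by rw [if_pos g2])
        refine ⟨E, ?_, fun _ _ _ => hE'⟩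
        rw [mul_div_assoc, div_self hq.ne', mul_one] at hE
        exact hE
      · exact ⟨∅, by rw [dimH_empty]; exact zero_le, fun g1 g2 g3 => absurd ⟨g1, g2, g3⟩ h1⟩
    choose E hE hE' using h0
    refine ⟨⋃ d, ⋃ A, ⋃ D, ⋃ q, ⋃ n, E d A D q n, ?_, fun ξ hξ d A D h1 h2 τ κ c₀ M hτ hκ => ?_⟩
    · simp only [dimH_iUnion]
      exact iSup_le fun d => iSup_le fun A => iSup_le fun D => iSup_le fun q => iSup_le fun n =>
        hE d A D q n
    · obtain ⟨q, hq1, hq2, hq3⟩ : ∃ q : ℚ, 0 < q ∧ (q : ℝ) < τ ∧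
          (16 * ((d : ℝ) + 1) / (δ * q) + 3) / 6 < κ := by
        have hcont : ContinuousAt (fun x : ℝ => (16 * ((d : ℝ) + 1) / (δ * x) + 3) / 6) τ := by
          refine ContinuousAt.div_const (ContinuousAt.add (ContinuousAt.div continuousAt_const
            (by fun_prop) (by positivity)) continuousAt_const) _
        have hev : ∀ᶠ x in nhds τ, (16 * ((d : ℝ) + 1) / (δ * x) + 3) / 6 < κ :=
          hcont.eventually_lt continuousAt_const hκ
        have hev2 : ∀ᶠ x in nhds τ, 0 < x := eventually_gt_nhds hτ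
        obtain ⟨l, u, hlu, hsub⟩ := mem_nhds_iff_exists_Ioo_subset.1 (hev.and hev2)
        obtain ⟨q, hq1, hq2⟩ := exists_rat_btwn hlu.1
        have h3 := hsub (show (q : ℝ) ∈ Set.Ioo l u from ⟨hq1, hq2.trans hlu.2⟩)
        exact ⟨q, by exact_mod_cast h3.2, hq2, h3.1⟩
      obtain ⟨n, hn⟩ := exists_nat_ge c₀
      have hξ' : ξ ∉ E d A D q n := fun hmem => hξ
        (Set.mem_iUnion.2 ⟨d, Set.mem_iUnion.2 ⟨A, Set.mem_iUnion.2 ⟨D, Set.mem_iUnion.2 ⟨q,
          Set.mem_iUnion.2 ⟨n, hmem⟩⟩⟩⟩⟩)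
      refine (hE' d A D q n h1 h2 hq1 ξ hξ' (max M 0)).subset ?_
      rintro t ⟨g1, g2⟩
      refine ⟨g1.trans ?_, fun g3 => g2 (mono hq3.le hn g3)⟩
      exact mul_le_mul (le_max_left _ _)
        (Real.rpow_le_rpow_of_exponent_le (one_le_height t) (by linarith)) (by positivity)
        (le_max_right _ _)
  · intro τ hτ
    have h0 : ∀ (d : ℕ) (A D : ℤ[X]) (n : ℕ), ∃ E : Set X, dimH E ≤ ENNReal.ofReal (1 / τ + δ) ∧
        (IsFunction d A D → ∀ ξ : X, ξ ∉ E →
          ∀ M : ℝ, {t : ℚ | dist (φ t) ξ ≤ M * (naiveHeight t : ℝ) ^ (-τ) ∧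
            ¬ HoldsAt ((16 * (d + 1) / (δ * τ) + 3) / 6) n A D t}.Finite) := by
      intro d A D n
      by_cases h1 : IsFunction d A D
      · obtain ⟨E, hE, hE'⟩ := one φ h1 (ε := δ * τ) (s := 1 + δ * τ) (τ := τ) n (by positivity)
          hτ (by split_ifs <;> linarith)
        refine ⟨E, ?_, fun _ => hE'⟩
        have e : (1 + δ * τ) / τ = 1 / τ + δ := by
          field_simp
        rw [e] at hE
        exact hE
      · exact ⟨∅, by rw [dimH_empty]; exact zero_le, fun g1 => absurd g1 h1⟩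
    choose E hE hE' using h0
    refine ⟨⋃ d, ⋃ A, ⋃ D, ⋃ n, E d A D n, ?_, fun ξ hξ d A D h1 κ c₀ M hκ => ?_⟩
    · simp only [dimH_iUnion]
      exact iSup_le fun d => iSup_le fun A => iSup_le fun D => iSup_le fun n => hE d A D n
    · obtain ⟨n, hn⟩ := exists_nat_ge c₀
      have hξ' : ξ ∉ E d A D n := fun hmem => hξ
        (Set.mem_iUnion.2 ⟨d, Set.mem_iUnion.2 ⟨A, Set.mem_iUnion.2 ⟨D,
          Set.mem_iUnion.2 ⟨n, hmem⟩⟩⟩⟩)
      refine (hE' d A D n h1 ξ hξ' M).subset ?_
      rintro t ⟨g1, g2⟩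
      exact ⟨g1, fun g3 => g2 (mono hκ.le hn g3)⟩

end Pool.Agent.Results.MP_6babc4_nt.FamiliesNearAPoint
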