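import Pool.Agent.J4.H74.TupNear
import Pool.Agent.Results.MP_6babc4_nt.EveryOneParameterFamily

/-!
# Frey's inequality for all members of a family of elliptic curves with parameters near values of
multiplicative functions, over all number fields, for all Weil restrictions and all twists

Frey asks for constants `κ`, `c` such that `h_F(A) ≤ κ log N_A + c` for all abelian varieties `A` over `K` of
dimension `g`. Let `J = A / D` be ANY non-constant rational function over `ℚ`, of degree `N`, for example the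
modular invariant of an elliptic curve over `ℚ(T)`. Let `f` be a multiplicative function of the class
described below, for example Euler's function or the sum of the divisors, and let `G` have steps bounded below
by a positive constant and growth at most `v^d`, for example `G(v) = α v^d`.

1. If `D` is not constant and `d ε + θ < 1`, then for all `m ≤ M` but at most `M / (log M)^U` the following
holds for ALL integers `t ≠ 0` with `||t| - G(f(m))| ≤ f(m)^θ`: `h_F(A) + c₀ g ≤ κ log N_A` with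
`κ = (16 (N + 1) / ε + 3) / 6`, for all number fields `K`, all extensions `L` of `K`, `g = [L : K]`, and all
elliptic curves `E` over `L` with invariant `J(t)`, `A = Res_{L/K} E` the Weil restriction. As `ε > 0` is
arbitrary, the windows may have any length `f(m)^θ`, `θ < 1`, and `G` any polynomial growth; the slope
depends on `N`, `d` and `θ` only.

2. If `d (1 + ε) + 2 θ < 2`, then for all pairs `m_1, m_2 ≤ M` but at most `M^2 / (log M)^U` the same holds
for the invariants `J(t)` with ALL rational numbers `t = ± p / q` (not necessarily in lowest terms) with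
`|p - G_1(f_1(m_1))| ≤ f_1(m_1)^θ` and `|q - G_2(f_2(m_2))| ≤ f_2(m_2)^θ`; here `J` is arbitrary. For
instance for `t = φ(m_1) / σ(m_2)`.

The values of a function like Euler's have density zero and are taken with very large multiplicities. So the
theorems do not follow from the number of the exceptional parameters of height at most `B` (the starting
theorem `EveryOneParameterFamily`: `O(B^ε)` integers, `O(B^(1+ε))` rational numbers) alone; the proof uses the
theorems of `Pool.Agent.N733.TG` on multiplicative functions, for pairs together with the count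
`TupNear.rat_pairs`, `TupNear.near_tuples` of the pairs near exceptional ones.
-/

set_option autoImplicit false

namespace Pool.Agent.Results.MP_6babc4_nt.MultiplicativeParameters

open Polynomial
open Pool.Agent.Results.MP_6babc4_nt.EveryOneParameterFamily (IsFunction HoldsAt)

/-- `f` is multiplicative, positive and of polynomial growth, and for the large primes `p` we have
`f(p) ≤ M p`, and different large primes have different values -/
structure LinearAtPrimes (f : ℕ → ℕ) : Prop where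
  mul : ∀ m n : ℕ, Nat.Coprime m n → f (m * n) = f m * f n
  pos : ∀ m : ℕ, 1 ≤ m → 1 ≤ f m
  growth : ∃ C D : ℕ, ∀ m : ℕ, 1 ≤ m → f m ≤ C * m ^ D
  prime : ∃ P M : ℕ, ∀ p : ℕ, P ≤ p → p.Prime →
    f p ≤ M * p ∧ ∀ q : ℕ, P ≤ q → q.Prime → f q = f p → q = p

/-- the steps of `G` are at least a positive constant, and `G(v) ≤ C v^d`, where `d ≥ 1` -/
structure Expanding (G : ℕ → ℝ) (d : ℝ) : Prop where
  one_le : 1 ≤ d
  step : ∃ a : ℝ, 0 < a ∧ ∀ v : ℕ, 1 ≤ v → a ≤ G (v + 1) - G v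
  growth : ∃ C : ℝ, ∀ v : ℕ, 1 ≤ v → G v ≤ C * (v : ℝ) ^ d

/-- **Frey's inequality near values of multiplicative functions.** Let `J = A / D` be a rational function of
degree `N`, `ε > 0`, `c₀` a real number, `κ = (16 (N + 1) / ε + 3) / 6`, `θ ≥ 0`.

(1) Let `D` be not constant, `f` `LinearAtPrimes`, `G` expanding with exponent `d`, and `d ε + θ < 1`. For
every `U`, all large `M` and all `m ≤ M` with at most `M / (log M)^U` exceptions all integers `t ≠ 0` with
`||t| - G(f(m))| ≤ f(m)^θ` satisfy `HoldsAt κ c₀ A D t`: Frey's inequality `h_F(Res_{L/K} E) + c₀ [L : K] ≤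
κ log N` for all number fields `K`, all extensions `L` and all elliptic curves `E` over `L` of invariant
`J(t)`.

(2) Let `f_1`, `f_2` be `LinearAtPrimes`, `G_1`, `G_2` expanding with exponent `d`, and
`d (1 + ε) + 2 θ < 2`. For every `U`, all large `M` and all pairs `m_1, m_2 ≤ M` with at most
`M^2 / (log M)^U` exceptions this is true for all the rational numbers `t = p / q` and `t = -p / q` with
`p, q ≥ 1`, `|p - G_1(f_1(m_1))| ≤ f_1(m_1)^θ`, `|q - G_2(f_2(m_2))| ≤ f_2(m_2)^θ`.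

Euler's function and the sum of the divisors are `LinearAtPrimes`, and `v ↦ α v^d` is expanding for `α > 0`,
`d ≥ 1`. -/
theorem result :
    (∀ (N : ℕ) (A D : ℤ[X]), IsFunction N A D → ∀ ε c₀ : ℝ, 0 < ε → ∀ d θ : ℝ, 0 ≤ θ →
      (1 ≤ D.natDegree → d * ε + θ < 1 → ∀ f : ℕ → ℕ, LinearAtPrimes f → ∀ G : ℕ → ℝ, Expanding G d →
        ∀ U : ℕ, ∃ M₀ : ℕ, ∀ M : ℕ, M₀ ≤ M →
        (Set.ncard {m : ℕ | 1 ≤ m ∧ m ≤ M ∧ ¬ ∀ t : ℤ, |(|t| : ℝ) - G (f m)| ≤ (f m : ℝ) ^ θ → t ≠ 0 →
          HoldsAt ((16 * (N + 1) / ε + 3) / 6) c₀ A D t} : ℝ) ≤ M / Real.log M ^ U) ∧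
      (d * (1 + ε) + 2 * θ < 2 → ∀ f : Fin 2 → ℕ → ℕ, (∀ i, LinearAtPrimes (f i)) →
        ∀ G : Fin 2 → ℕ → ℝ, (∀ i, Expanding (G i) d) → ∀ U : ℕ, ∃ M₀ : ℕ, ∀ M : ℕ, M₀ ≤ M →
        (Set.ncard {m : Fin 2 → ℕ | (∀ i, 1 ≤ m i ∧ m i ≤ M) ∧ ¬ ∀ x : Fin 2 → ℕ,
          (∀ i, 1 ≤ x i ∧ |(x i : ℝ) - G i (f i (m i))| ≤ (f i (m i) : ℝ) ^ θ) →
          HoldsAt ((16 * (N + 1) / ε + 3) / 6) c₀ A D ((x 0 : ℚ) / (x 1 : ℚ)) ∧
          HoldsAt ((16 * (N + 1) / ε + 3) / 6) c₀ A D (-(x 0 : ℚ) / (x 1 : ℚ))} : ℝ) ≤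
        (M : ℝ) ^ 2 / Real.log M ^ U)) ∧
    LinearAtPrimes Nat.totient ∧ LinearAtPrimes (fun m => ∑ d ∈ m.divisors, d) ∧
    ∀ α d : ℝ, 0 < α → 1 ≤ d → Expanding (fun v => α * (v : ℝ) ^ d) d := by
  classical
  refine ⟨?_, ?_, ?_, ?_⟩
  · intro N A D h ε c₀ hε d θ hθ
    obtain ⟨H1, -, H3⟩ := Pool.Agent.Results.MP_6babc4_nt.EveryOneParameterFamily.result N A D h ε c₀ hε
    refine ⟨fun hD h1 f hf G hG U => ?_, fun h1 f hf G hG U => ?_⟩
    · obtain ⟨C, hC⟩ := H3 hD
      have hd := hG.one_le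
      -- a stronger form of the exponent
      obtain ⟨N₀, hN₀⟩ := Pool.Agent.N733.TG.keep_good_nat (fun _ => True)
        (fun n => HoldsAt ((16 * (N + 1) / ε + 3) / 6) c₀ A D ((n : ℤ) : ℚ) ∧
          HoldsAt ((16 * (N + 1) / ε + 3) / 6) c₀ A D ((-(n : ℤ) : ℤ) : ℚ))
        (f := f) ⟨hf.mul, hf.pos, hf.growth, hf.prime⟩ (G := G) (d := d) ⟨hG.one_le, hG.step, hG.growth⟩
        (s := ε) (κ := θ) hε.le hθ h1 (by
          intro ε' hε'
          refine ⟨2 * |C|, fun X hX => ?_⟩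
          have hX1 : (1 : ℝ) ≤ X := by exact_mod_cast hX
          have h2 := hC X hX
          obtain ⟨S, hS⟩ : ∃ S : Set ℤ, S = {t : ℤ | |t| ≤ X ∧
            ¬ HoldsAt ((16 * (N + 1) / ε + 3) / 6) c₀ A D t} := ⟨_, rfl⟩
          rw [← hS] at h2
          have hSfin : S.Finite := by
            rw [hS]
            refine (Set.finite_Icc (-(X : ℤ)) X).subset ?_
            rintro t ⟨ht, -⟩
            exact ⟨(abs_le.1 ht).1, (abs_le.1 ht).2⟩
          have hsub : {t : ℕ | 1 ≤ t ∧ t ≤ X ∧ True ∧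
              ¬ (HoldsAt ((16 * (N + 1) / ε + 3) / 6) c₀ A D ((t : ℤ) : ℚ) ∧
                HoldsAt ((16 * (N + 1) / ε + 3) / 6) c₀ A D ((-(t : ℤ) : ℤ) : ℚ))} ⊆
              (fun t : ℤ => t.natAbs) '' S := by
            rintro t ⟨h3, h4, -, h5⟩
            rw [hS]
            rcases not_and_or.1 h5 with h6 | h6
            · refine ⟨(t : ℤ), ⟨?_, h6⟩, by simp⟩
              rw [Nat.abs_cast]
              exact_mod_cast h4
            · refine ⟨-(t : ℤ), ⟨?_, h6⟩, by simp⟩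
              rw [abs_neg, Nat.abs_cast]
              exact_mod_cast h4
          have h3 : {t : ℕ | 1 ≤ t ∧ t ≤ X ∧ True ∧
              ¬ (HoldsAt ((16 * (N + 1) / ε + 3) / 6) c₀ A D ((t : ℤ) : ℚ) ∧
                HoldsAt ((16 * (N + 1) / ε + 3) / 6) c₀ A D ((-(t : ℤ) : ℤ) : ℚ))}.ncard ≤ S.ncard :=
            (Set.ncard_le_ncard hsub (hSfin.image _)).trans (Set.ncard_image_le hSfin)
          calc _ ≤ (S.ncard : ℝ) := by exact_mod_cast h3
            _ ≤ C * (X : ℝ) ^ ε := h2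
            _ ≤ |C| * (X : ℝ) ^ ε := mul_le_mul_of_nonneg_right (le_abs_self C) (by positivity)
            _ ≤ |C| * (X : ℝ) ^ (ε + ε') := mul_le_mul_of_nonneg_left
                (Real.rpow_le_rpow_of_exponent_le hX1 (by linarith)) (abs_nonneg C)
            _ ≤ 2 * |C| * (X : ℝ) ^ (ε + ε') := by
                have : 0 ≤ |C| * (X : ℝ) ^ (ε + ε') := by positivity
                linarith) U
      refine ⟨N₀, fun M hM => le_trans ?_ (hN₀ M hM)⟩
      have hfin : {m : ℕ | 1 ≤ m ∧ m ≤ M ∧ ¬ ∀ n : ℕ, 1 ≤ n → True → |(n : ℝ) - G (f m)| ≤ (f m : ℝ) ^ θ →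
          HoldsAt ((16 * (N + 1) / ε + 3) / 6) c₀ A D ((n : ℤ) : ℚ) ∧
            HoldsAt ((16 * (N + 1) / ε + 3) / 6) c₀ A D ((-(n : ℤ) : ℤ) : ℚ)}.Finite := by
        refine (Set.finite_Icc 1 M).subset ?_
        intro m hm
        exact ⟨hm.1, hm.2.1⟩
      have hsub : {m : ℕ | 1 ≤ m ∧ m ≤ M ∧ ¬ ∀ t : ℤ, |(|t| : ℝ) - G (f m)| ≤ (f m : ℝ) ^ θ → t ≠ 0 →
          HoldsAt ((16 * (N + 1) / ε + 3) / 6) c₀ A D t} ⊆
          {m : ℕ | 1 ≤ m ∧ m ≤ M ∧ ¬ ∀ n : ℕ, 1 ≤ n → True → |(n : ℝ) - G (f m)| ≤ (f m : ℝ) ^ θ →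
          HoldsAt ((16 * (N + 1) / ε + 3) / 6) c₀ A D ((n : ℤ) : ℚ) ∧
            HoldsAt ((16 * (N + 1) / ε + 3) / 6) c₀ A D ((-(n : ℤ) : ℤ) : ℚ)} := by
        rintro m ⟨h2, h3, h4⟩
        refine ⟨h2, h3, fun h5 => h4 fun t ht ht0 => ?_⟩
        have h6 : (|t| : ℝ) = ((t.natAbs : ℕ) : ℝ) := by
          rw [Nat.cast_natAbs, Int.cast_abs]
        obtain ⟨h7, h8⟩ := h5 t.natAbs (Int.natAbs_pos.2 ht0) trivial (by rw [← h6]; exact ht)
        rcases Int.natAbs_eq t with h9 | h9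
        · rw [h9]
          exact_mod_cast h7
        · rw [h9]
          exact_mod_cast h8
      exact_mod_cast Set.ncard_le_ncard hsub hfin
    · have hd := (hG 0).one_le
      obtain ⟨E, hE⟩ : ∃ E : Set ℚ, E = {t : ℚ | ¬ HoldsAt ((16 * (N + 1) / ε + 3) / 6) c₀ A D t} :=
        ⟨_, rfl⟩
      have hcount : ∃ C : ℝ, ∀ B : ℕ, 1 ≤ B →
          ({t : ℚ | |t.num| ≤ B ∧ t.den ≤ B ∧ t ∈ E}.ncard : ℝ) ≤ C * (B : ℝ) ^ (1 + ε) := by
        obtain ⟨C, hC⟩ := H1
        refine ⟨C, fun B hB => ?_⟩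
        rw [hE]
        exact hC B hB
      obtain ⟨N₀, hN₀⟩ := Pool.Agent.J4.H74.TupNear.keep_near_tuples (k := 2)
        (fun x => ((x 0 : ℚ) / (x 1 : ℚ)) ∈ E ∨ (-(x 0 : ℚ) / (x 1 : ℚ)) ∈ E)
        (s := 1 + ε) (by linarith)
        (by
          obtain ⟨C, hC⟩ := Pool.Agent.J4.H74.TupNear.rat_pairs (s := 1 + ε) E (by linarith) hcount
          exact ⟨C, fun Y hY => by convert hC Y hY⟩)
        (F := f) (fun i => ⟨(hf i).mul, (hf i).pos, (hf i).growth, (hf i).prime⟩)
        (G := G) (d := d) (fun i => ⟨(hG i).one_le, (hG i).step, (hG i).growth⟩) hd (κ := θ) hθ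
        (by
          have h2 : 1 + ε ≤ d * (1 + ε) := le_mul_of_one_le_left (by linarith) hd
          linarith) (by push_cast; exact h1) U
      refine ⟨N₀, fun M hM => le_trans (le_of_eq ?_) (hN₀ M hM)⟩
      congr 2
      ext m
      refine and_congr_right fun _ => not_congr (forall_congr' fun x => imp_congr_right fun _ => ?_)
      rw [hE]
      simp only [Set.mem_ofPred_eq, not_or, not_not]
  · have h := Pool.Agent.N733.TG.lm_totient
    exact ⟨h.mul, h.pos, h.growth, h.prime⟩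
  · have h := Pool.Agent.N733.TG.lm_sigma
    exact ⟨h.mul, h.pos, h.growth, h.prime⟩
  · intro α d hα hd
    have h := Pool.Agent.N733.TG.expanding_pow hα hd
    exact ⟨h.one_le, h.step, h.growth⟩

end Pool.Agent.Results.MP_6babc4_nt.MultiplicativeParameters
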