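import Pool.Agent.N918.MS.Cnt
import Pool.Agent.R482.ST.Star
import Pool.Agent.Results.MP_6babc4_nt.FamiliesNearAPoint

/-!
# Frey's inequality for all families of elliptic curves at parameters in metric and random sequences

Frey asks for constants `κ`, `c` with `h_F(A) ≤ κ log N_A + c` for all abelian varieties `A` over `K` of dimension `g`. For a
rational function `J = A/D` over `ℚ` and a rational number `t` let `HoldsAt κ c₀ A D t` mean that `t` is no pole of `J` and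
that `h_F(Res_{L/K} E) + c₀ [L : K] ≤ κ log N` for ALL number fields `K`, `L ⊇ K` and ALL elliptic curves `E` over `L` of
invariant `J(t)` (see `FamiliesNearAPoint`).

(1) Let `f_k`, `k = 0, 1, 2, …`, be positive functions on `(a, ∞)`, `a ≥ 0`, such that `f_k(x) / x` is nondecreasing, and such
that the sequence `f_k(x)` has exponent of convergence at most `σ` for each `x > a`: for instance `f_k(x) = x ^ (v_k)` for
exponents `v_k ≥ 1` (`σ = 0`), the orbits `f_k(x) = g (g (⋯ g (x)))` of any map `g` with `g(x) > x` and `g(x) / x`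
nondecreasing (`σ = 0`), and `f_k(x) = v_k x`. Let `θ < 1` and `δ > 0`. There is ONE set `E` of Hausdorff dimension at most
`(δ + σ) / (1 - θ)`, such that for all `α > a` outside `E`, ALL rational functions `J` over `ℚ` with at least two poles, of any
degree `d`, all `κ > (16 (d + 1) / δ + 3) / 6`, `c₀` and `M`, for all large `k` `HoldsAt κ c₀ A D t` is true for EVERY rational
`t` whose height `H` satisfies `|H - f_k(α)| ≤ M f_k(α) ^ θ`.

(2) For ALL rational functions `J` over `ℚ` with at least two poles, of any degree `d`, and all `κ > (16 d + 19) / 6` and `c₀`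
at once, outside of ONE event (set) of probability (measure) zero,
* for random integers `X_n`, of ANY dependence, with `P (X_n = k) ≤ C / (|k| + 1)`, almost surely `HoldsAt κ c₀ A D X_n` is
  true for all but finitely many `n`, if `|X_n| ≥ exp (n ^ η)` outside of events with a convergent sum of probabilities; and
  for all but `M / (log M) ^ U` of the `n < M`, for all `U`, if `∑_{n < M} P (|X_n| < M ^ η) ≤ C M ^ (1 - η)`;
* for all linear forms `a_n` in `m` variables with norms at least `exp (n ^ η)`, for almost all vectors `α`, it is true for all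
  but finitely many `⌊a_n (α)⌋`; the same for `⌊h_n (x)⌋`, for almost all `x` in an interval on which `|h_n'| ≥ c |h_n|` and
  `|h_n| ≥ exp (n ^ η)`; the same for `⌊ξ x ^ n⌋`, for all `ξ ≠ 0` and almost all `x > 1`;
* for ANY sequence of real numbers `a_n` with mutual distances at least `η > 0`, in any order, and almost all real `α` it is
  true for all but `M / (log M) ^ U` of the `⌊a_n α⌋`, `n < M`, for all `U`.

Proof: `O(B ^ δ)` exceptional rational numbers of height at most `B` (`Pool.Agent.N365.FH`, helper365), and the covering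
arguments `Pool.Agent.R482.ST.windows` and `Pool.Agent.N918.MS.randomAndMetric` of the starting library.
-/

set_option autoImplicit false
set_option linter.unusedSectionVars false

namespace Pool.Agent.Results.MP_6babc4_nt.ParametersInSequences

open Polynomial MeasureTheory Filter Topology
open Pool.Agent.N918.MS (AlmostAlways RandomAndMetric randomAndMetric)
open Pool.Agent.Results.MP_6babc4_nt.FamiliesNearAPoint (HoldsAt IsFunction poleCount naiveHeight follows mono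
  countable_poly one_le_height)

/-- the functions `f n` are positive on `(a, ∞)`, `a ≥ 0`, and `f n x / x` is nondecreasing there -/
def Starshaped (a : ℝ) (f : ℕ → ℝ → ℝ) : Prop :=
  0 ≤ a ∧ ∀ n : ℕ, ∀ x y : ℝ, a < x → x ≤ y → 0 < f n x ∧ f n x / x ≤ f n y / y

/-- for each `x > a` the exponent of convergence of the sequence `f n x` is at most `τ` -/
def ExpLe (a : ℝ) (f : ℕ → ℝ → ℝ) (τ : ℝ) : Prop :=
  ∀ x : ℝ, a < x → ∀ t : ℝ, τ < t → Summable (fun n : ℕ => (f n x) ^ (-t))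

/-- a rational function `J = A / D` of degree `d`, and the constants of the inequality -/
structure Datum where
  d : ℕ
  A : ℤ[X]
  D : ℤ[X]
  κ : ℚ
  c₀ : ℕ

/-- `J` has at least two poles, and `κ > (16 d + 19) / 6` -/
structure Datum.Ok (x : Datum) : Prop where
  isFunction : IsFunction x.d x.A x.D
  poles : 2 ≤ poleCount x.d x.D
  slope : (16 * (x.d : ℚ) + 19) / 6 < x.κ

instance : Countable Datum := by
  have := countable_poly
  have h : Function.Surjective (fun y : ℕ × ℤ[X] × ℤ[X] × ℚ × ℕ =>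
      (⟨y.1, y.2.1, y.2.2.1, y.2.2.2.1, y.2.2.2.2⟩ : Datum)) :=
    fun x => ⟨⟨x.d, x.A, x.D, x.κ, x.c₀⟩, rfl⟩
  exact h.countable

/-- the number of the exceptional rational numbers -/
lemma count {d : ℕ} {A D : ℤ[X]} (h : IsFunction d A D) (h2 : 2 ≤ poleCount d D) {ε : ℝ} (c₀ : ℝ) (hε : 0 < ε) :
    ∃ C : ℝ, ∀ B : ℝ, 1 ≤ B →
      {t : ℚ | ¬ HoldsAt ((16 * (d + 1) / ε + 3) / 6) c₀ A D t ∧ (naiveHeight t : ℝ) ≤ B}.Finite ∧
      ({t : ℚ | ¬ HoldsAt ((16 * (d + 1) / ε + 3) / 6) c₀ A D t ∧ (naiveHeight t : ℝ) ≤ B}.ncard : ℝ) ≤ C * B ^ ε := by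
  have hR : Pool.Agent.N365.LS.Rat d A D := ⟨h.pos, h.deg_num, h.deg_den, h.deg, h.coprime⟩
  have hpole : poleCount d D = Pool.Agent.N365.LS.poleCount d D := rfl
  obtain ⟨κ, hκ⟩ : ∃ κ : ℝ, κ = (16 * (d + 1) / ε + 3) / 6 := ⟨_, rfl⟩
  obtain ⟨C, hC⟩ := Pool.Agent.N365.FH.few_rat hR hε (follows d hε c₀)
  rw [← hκ] at hC ⊢
  refine ⟨max C 0, fun B hB => ?_⟩
  obtain ⟨b, hb⟩ : ∃ b : ℕ, b = ⌊B⌋₊ := ⟨_, rfl⟩
  have hb1 : 1 ≤ b := by rw [hb]; exact (Nat.one_le_floor_iff _).2 hB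
  have hbB : (b : ℝ) ≤ B := by rw [hb]; exact Nat.floor_le (by linarith)
  have hb1R : (1 : ℝ) ≤ b := by exact_mod_cast hb1
  have hbox : {t : ℚ | |t.num| ≤ (b : ℤ) ∧ t.den ≤ b}.Finite := by
    have hinj : Function.Injective (fun t : ℚ => (t.num, t.den)) := by
      intro x y hxy
      rw [Prod.mk.injEq] at hxy
      exact Rat.ext hxy.1 hxy.2
    refine Set.Finite.of_finite_image (f := fun t : ℚ => (t.num, t.den)) ?_ hinj.injOn
    refine ((Set.finite_Icc (-(b : ℤ)) b).prod (Set.finite_Icc 0 b)).subset ?_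
    rintro _ ⟨t, ⟨h1, h2⟩, rfl⟩
    exact ⟨abs_le.1 h1, Nat.zero_le _, h2⟩
  have hsub : {t : ℚ | ¬ HoldsAt κ c₀ A D t ∧ (naiveHeight t : ℝ) ≤ B} ⊆
      {t : ℚ | |t.num| ≤ b ∧ t.den ≤ b ∧ ¬ HoldsAt κ c₀ A D t} := by
    rintro t ⟨h1, h2⟩
    have h3 : naiveHeight t ≤ b := by rw [hb]; exact Nat.le_floor h2
    refine ⟨?_, (le_max_right _ _).trans h3, h1⟩
    have h4 : t.num.natAbs ≤ b := (le_max_left _ _).trans h3
    rw [Int.abs_eq_natAbs]
    exact_mod_cast h4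
  have hfin : {t : ℚ | |t.num| ≤ (b : ℤ) ∧ t.den ≤ b ∧ ¬ HoldsAt κ c₀ A D t}.Finite :=
    hbox.subset fun t ht => ⟨ht.1, ht.2.1⟩
  refine ⟨hfin.subset hsub, ?_⟩
  have h1 : (({t : ℚ | ¬ HoldsAt κ c₀ A D t ∧ (naiveHeight t : ℝ) ≤ B}.ncard : ℕ) : ℝ) ≤
      ({t : ℚ | |t.num| ≤ b ∧ t.den ≤ b ∧ ¬ HoldsAt κ c₀ A D t}.ncard : ℝ) := by
    exact_mod_cast Set.ncard_le_ncard hsub hfin
  refine h1.trans ((hC b hb1).trans (mul_le_mul (le_max_left _ _) ?_ (by positivity)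
    (le_max_right _ _)))
  rw [← hpole, if_pos h2]
  exact Real.rpow_le_rpow (by linarith) hbB hε.le

lemma power_log {s : ℝ} (hs : s < 1) (C : ℝ) (U : ℕ) : ∀ᶠ X : ℝ in atTop, C * X ^ s ≤ X / Real.log X ^ U := by
  have h1 : (fun x : ℝ => Real.log x ^ (U : ℝ)) =o[atTop] fun x => x ^ (1 - s) :=
    isLittleO_log_rpow_rpow_atTop _ (by linarith)
  have hC : 0 < 1 / (|C| + 1) := by positivity
  filter_upwards [h1.bound hC, eventually_gt_atTop 1] with X hX hX1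
  have hl : 0 < Real.log X := Real.log_pos hX1
  have hX0 : 0 < X := by linarith
  rw [Real.norm_of_nonneg (by positivity), Real.norm_of_nonneg (by positivity), Real.rpow_natCast] at hX
  rw [le_div_iff₀ (by positivity)]
  have e : X ^ s * X ^ (1 - s) = X := by rw [← Real.rpow_add hX0]; simp
  have h2 : C ≤ |C| + 1 := by linarith [le_abs_self C]
  have h3 : 0 ≤ X ^ s := by positivity
  calc C * X ^ s * Real.log X ^ U ≤ (|C| + 1) * X ^ s * (1 / (|C| + 1) * X ^ (1 - s)) := by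
        apply mul_le_mul (mul_le_mul_of_nonneg_right h2 h3) hX (by positivity) (by positivity)
    _ = X ^ s * X ^ (1 - s) := by field_simp
    _ = X := e

lemma almost (x : {x : Datum // x.Ok}) :
    AlmostAlways (fun t : ℤ => HoldsAt (x.1.κ : ℝ) (x.1.c₀ : ℝ) x.1.A x.1.D (t : ℚ)) := by
  obtain ⟨⟨d, A, D, κ, c₀⟩, hf, hp, hκ⟩ := x
  simp only at hf hp hκ
  have hκ' : (16 * (d : ℝ) + 19) / 6 < κ := by
    have : (((16 * (d : ℚ) + 19) / 6 : ℚ) : ℝ) < κ := by exact_mod_cast hκ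
    push_cast at this
    exact this
  -- an exponent less than one
  obtain ⟨ε, hε0, hε1, hεκ⟩ : ∃ ε : ℝ, 0 < ε ∧ ε < 1 ∧ (16 * ((d : ℝ) + 1) / ε + 3) / 6 ≤ κ := by
    have hd : (0 : ℝ) ≤ d := Nat.cast_nonneg d
    have hpos : (0 : ℝ) < 6 * κ - 3 := by linarith
    refine ⟨16 * ((d : ℝ) + 1) / (6 * κ - 3), by positivity, ?_, ?_⟩
    · rw [div_lt_one hpos]; linarith
    · rw [div_div_eq_mul_div, mul_comm (16 * ((d : ℝ) + 1)), mul_div_assoc, div_self (by positivity), mul_one]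
      linarith
  obtain ⟨C, hC⟩ := count hf hp (c₀ : ℝ) hε0
  intro U
  obtain ⟨X₀, hX₀⟩ := eventually_atTop.1 (((tendsto_natCast_atTop_atTop (R := ℝ)).eventually
    (power_log hε1 C U)).and (eventually_ge_atTop 1))
  refine ⟨X₀, fun X hX => ?_⟩
  obtain ⟨e1, e2⟩ := hX₀ X hX
  refine le_trans ?_ e1
  obtain ⟨hfin, hcard⟩ := hC X (by exact_mod_cast e2)
  refine le_trans ?_ hcard
  have hinj : Function.Injective (fun k : ℤ => (k : ℚ)) := Int.cast_injective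
  have hsub : (fun k : ℤ => (k : ℚ)) '' {k : ℤ | k ∈ Set.Icc (-(X : ℤ)) X ∧ ¬ HoldsAt (κ : ℝ) (c₀ : ℝ) A D (k : ℚ)} ⊆
      {t : ℚ | ¬ HoldsAt ((16 * (d + 1) / ε + 3) / 6) c₀ A D t ∧ (naiveHeight t : ℝ) ≤ X} := by
    rintro _ ⟨k, ⟨⟨hk1, hk2⟩, hk3⟩, rfl⟩
    refine ⟨fun h => hk3 (mono hεκ le_rfl h), ?_⟩
    have h1 : naiveHeight (k : ℚ) ≤ X := by
      show max ((k : ℚ)).num.natAbs ((k : ℚ)).den ≤ X
      rw [Rat.num_intCast, Rat.den_intCast]
      exact max_le (by omega) e2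
    exact_mod_cast h1
  have h2 := Set.ncard_le_ncard hsub hfin
  rw [Set.ncard_image_of_injective _ hinj] at h2
  exact_mod_cast h2

/-- **Frey's inequality at parameters in metric and random sequences**, for all families at once. -/
theorem result :
    (∀ (a : ℝ) (f : ℕ → ℝ → ℝ) (σ θ δ : ℝ), Starshaped a f → 0 ≤ σ → ExpLe a f σ → θ < 1 → 0 < δ →
      ∃ E : Set ℝ, dimH E ≤ ENNReal.ofReal ((δ + σ) / (1 - θ)) ∧ ∀ α : ℝ, a < α → α ∉ E →
        ∀ (d : ℕ) (A D : ℤ[X]), IsFunction d A D → 2 ≤ poleCount d D → ∀ κ c₀ M : ℝ, (16 * (d + 1) / δ + 3) / 6 < κ →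
          ∃ k₀ : ℕ, ∀ k : ℕ, k₀ ≤ k → ∀ t : ℚ, |(naiveHeight t : ℝ) - f k α| ≤ M * (f k α) ^ θ → HoldsAt κ c₀ A D t) ∧
    RandomAndMetric (fun (x : {x : Datum // x.Ok}) (t : ℤ) => HoldsAt (x.1.κ : ℝ) (x.1.c₀ : ℝ) x.1.A x.1.D (t : ℚ)) ∧
    (∀ (v : ℕ → ℝ) (τ : ℝ), (∀ n, 0 < v n) → (∀ t : ℝ, τ < t → Summable (fun n : ℕ => (v n) ^ (-t))) →
      Starshaped 0 (fun n x => v n * x) ∧ ExpLe 0 (fun n x => v n * x) τ) ∧
    (∀ v : ℕ → ℝ, (∀ n, 1 ≤ v n) → (∀ t : ℝ, 0 < t → Summable fun n : ℕ => Real.exp (-(t * v n))) →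
      Starshaped 1 (fun n x => x ^ (v n)) ∧ ExpLe 1 (fun n x => x ^ (v n)) 0) ∧
    (∀ (a : ℝ) (g : ℝ → ℝ), 0 ≤ a → (∀ x y : ℝ, a < x → x ≤ y → g x / x ≤ g y / y) → (∀ x : ℝ, a < x → x < g x) →
      Starshaped a (fun n x => g^[n] x) ∧ ExpLe a (fun n x => g^[n] x) 0) := by
  have hcp := countable_poly
  refine ⟨fun a f σ θ δ hf hσ hE hθ hδ => ?_, randomAndMetric _ almost, Pool.Agent.R482.ST.ex_mul,
    Pool.Agent.R482.ST.ex_pow, Pool.Agent.R482.ST.ex_orbit⟩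
  have h0 : ∀ (d : ℕ) (A D : ℤ[X]) (n : ℕ), ∃ E : Set ℝ, dimH E ≤ ENNReal.ofReal ((δ + σ) / (1 - θ)) ∧
      (IsFunction d A D → 2 ≤ poleCount d D → ∀ α : ℝ, a < α → α ∉ E → ∀ M : ℝ, ∃ k₀ : ℕ, ∀ k : ℕ, k₀ ≤ k →
        ∀ t : ℚ, |(naiveHeight t : ℝ) - f k α| ≤ M * (f k α) ^ θ → HoldsAt ((16 * (d + 1) / δ + 3) / 6) n A D t) := by
    intro d A D n
    by_cases h1 : IsFunction d A D ∧ 2 ≤ poleCount d D
    · obtain ⟨g1, g2⟩ := h1
      obtain ⟨C, hC⟩ := count g1 g2 (n : ℝ) hδ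
      have hcount : ∀ ε : ℝ, 0 < ε → ∃ C : ℝ, ∀ B : ℝ, 1 ≤ B →
          {t : ℚ | t ∈ {t : ℚ | ¬ HoldsAt ((16 * (d + 1) / δ + 3) / 6) n A D t} ∧ (naiveHeight t : ℝ) ≤ B}.Finite ∧
          ({t : ℚ | t ∈ {t : ℚ | ¬ HoldsAt ((16 * (d + 1) / δ + 3) / 6) n A D t} ∧ (naiveHeight t : ℝ) ≤ B}.ncard : ℝ) ≤
            C * B ^ (δ + ε) := by
        refine fun ε hε => ⟨max C 0, fun B hB => ⟨(hC B hB).1, (hC B hB).2.trans ?_⟩⟩
        exact mul_le_mul (le_max_left _ _) (Real.rpow_le_rpow_of_exponent_le hB (by linarith)) (by positivity)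
          (le_max_right _ _)
      obtain ⟨E, hE1, hE2⟩ := Pool.Agent.R482.ST.windows
        {t : ℚ | ¬ HoldsAt ((16 * (d + 1) / δ + 3) / 6) n A D t} (fun t : ℚ => (naiveHeight t : ℝ)) hf hσ hE
        (s := δ) hδ.le hθ hcount
      refine ⟨E, hE1, fun _ _ α hα hαE M => ?_⟩
      obtain ⟨k₀, hk⟩ := hE2 α hα hαE M
      refine ⟨k₀, fun k hk1 t ht => ?_⟩
      by_contra hcon
      exact absurd (hk k hk1 t hcon) (not_lt.2 ht)
    · exact ⟨∅, by rw [dimH_empty]; exact zero_le, fun g1 g2 => absurd ⟨g1, g2⟩ h1⟩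
  choose E hE1 hE2 using h0
  refine ⟨⋃ d, ⋃ A, ⋃ D, ⋃ n, E d A D n, ?_, fun α hα hαE d A D h1 h2 κ c₀ M hκ => ?_⟩
  · simp only [dimH_iUnion]
    exact iSup_le fun d => iSup_le fun A => iSup_le fun D => iSup_le fun n => hE1 d A D n
  · obtain ⟨n, hn⟩ := exists_nat_ge c₀
    have hα' : α ∉ E d A D n := fun hmem => hαE
      (Set.mem_iUnion.2 ⟨d, Set.mem_iUnion.2 ⟨A, Set.mem_iUnion.2 ⟨D, Set.mem_iUnion.2 ⟨n, hmem⟩⟩⟩⟩)
    obtain ⟨k₀, hk⟩ := hE2 d A D n h1 h2 α hα hα' M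
    exact ⟨k₀, fun k hk1 t ht => mono hκ.le hn (hk k hk1 t ht)⟩

end Pool.Agent.Results.MP_6babc4_nt.ParametersInSequences
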